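import Mathlib
import Pool.Agent.Helper35.MS.StE

/-!
Project MS (MP_925021_gt), module CAP: capacity estimate for the level sets of `|H|`.
-/

set_option autoImplicit false

namespace Helper18.MS

open Helper35.MS Helper35.PI Helper35.PI2 Helper32.CL
open scoped ContDiff Manifold Topology ENNReal BigOperators
open MeasureTheory Set Filter

/-! ### the cut-off function -/

private noncomputable def kf (x : ℝ) : ℝ := max 0 (6 * x * (1 - x))

private theorem kf_cont : Continuous kf := by
  unfold kf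
  fun_prop

private theorem kf_nonneg (x : ℝ) : 0 ≤ kf x := le_max_left _ _

private theorem kf_le (x : ℝ) : kf x ≤ 3 / 2 := by
  unfold kf
  refine max_le (by norm_num) ?_
  nlinarith [sq_nonneg (x - 1 / 2)]

private theorem kf_zero_left {x : ℝ} (hx : x ≤ 0) : kf x = 0 := by
  unfold kf
  refine max_eq_left ?_
  nlinarith

private theorem kf_zero_right {x : ℝ} (hx : 1 ≤ x) : kf x = 0 := by
  unfold kf
  refine max_eq_left ?_
  nlinarith

private noncomputable def Pf (x : ℝ) : ℝ := ∫ s in (0 : ℝ)..x, kf s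

private theorem Pf_deriv (x : ℝ) : HasDerivAt Pf (kf x) x :=
  intervalIntegral.integral_hasDerivAt_right (kf_cont.intervalIntegrable _ _)
    (kf_cont.stronglyMeasurableAtFilter _ _) kf_cont.continuousAt

private theorem Pf_zero {x : ℝ} (hx : x ≤ 0) : Pf x = 0 := by
  unfold Pf
  rw [intervalIntegral.integral_congr (g := fun _ => (0 : ℝ))]
  · simp
  · intro s hs
    rw [uIcc_of_ge hx] at hs
    exact kf_zero_left hs.2

private theorem Pf_at_one : Pf 1 = 1 := by
  unfold Pf
  rw [intervalIntegral.integral_congr (g := fun s : ℝ => 6 * s - 6 * s ^ 2)]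
  · have c1 : Continuous (fun s : ℝ => 6 * s) := by fun_prop
    have c2 : Continuous (fun s : ℝ => 6 * s ^ 2) := by fun_prop
    have e1 : ∫ s in (0 : ℝ)..1, 6 * s = 3 := by
      rw [intervalIntegral.integral_const_mul, integral_id]
      norm_num
    have e2 : ∫ s in (0 : ℝ)..1, 6 * s ^ 2 = 2 := by
      rw [intervalIntegral.integral_const_mul, integral_pow]
      norm_num
    rw [intervalIntegral.integral_sub (c1.intervalIntegrable _ _) (c2.intervalIntegrable _ _),
      e1, e2]
    norm_num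
  · intro s hs
    rw [uIcc_of_le zero_le_one] at hs
    have h1 := hs.1
    have h2 := hs.2
    simp only [kf]
    rw [max_eq_right (by nlinarith)]
    ring

private theorem Pf_mono : Monotone Pf := by
  apply monotone_of_deriv_nonneg
  · exact fun x => (Pf_deriv x).differentiableAt
  · intro x
    rw [(Pf_deriv x).deriv]
    exact kf_nonneg x

private theorem Pf_one {x : ℝ} (hx : 1 ≤ x) : Pf x = 1 := by
  have h1 : Pf x = Pf 1 + ∫ s in (1 : ℝ)..x, kf s := by
    unfold Pf
    rw [intervalIntegral.integral_add_adjacent_intervals (kf_cont.intervalIntegrable _ _)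
      (kf_cont.intervalIntegrable _ _)]
  have h2 : ∫ s in (1 : ℝ)..x, kf s = 0 := by
    rw [intervalIntegral.integral_congr (g := fun _ => (0 : ℝ))]
    · simp
    · intro s hs
      rw [uIcc_of_le hx] at hs
      exact kf_zero_right hs.1
  rw [h1, h2, Pf_at_one, add_zero]

private theorem Pf_nonneg (x : ℝ) : 0 ≤ Pf x := by
  rcases le_total x 0 with h | h
  · rw [Pf_zero h]
  · have := Pf_mono h
    rwa [Pf_zero le_rfl] at this

private theorem Pf_le_one (x : ℝ) : Pf x ≤ 1 := by
  rcases le_total x 1 with h | h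
  · have := Pf_mono h
    rwa [Pf_at_one] at this
  · rw [Pf_one h]

private noncomputable def zf (a x : ℝ) : ℝ := Pf (2 * Real.sqrt x / a - 1)

private noncomputable def zd (a x : ℝ) : ℝ := kf (2 * Real.sqrt x / a - 1) / (a * Real.sqrt x)

private theorem arg_neg {a x : ℝ} (ha : 0 < a) (hx : Real.sqrt x ≤ a / 2) :
    2 * Real.sqrt x / a - 1 ≤ 0 := by
  have : 2 * Real.sqrt x / a ≤ 1 := by
    rw [div_le_one ha]
    linarith
  linarith

private theorem arg_pos {a x : ℝ} (ha : 0 < a) (hx : a ≤ Real.sqrt x) :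
    1 ≤ 2 * Real.sqrt x / a - 1 := by
  have : 2 ≤ 2 * Real.sqrt x / a := by
    rw [le_div_iff₀ ha]
    linarith
  linarith

private theorem sqrt_lt' {a x : ℝ} (ha : 0 < a) (hx : x < a ^ 2 / 4) : Real.sqrt x ≤ a / 2 := by
  rw [Real.sqrt_le_left (by positivity)]
  nlinarith

private theorem ev_lt {a x : ℝ} (hx : x < a ^ 2 / 4) : ∀ᶠ y in 𝓝 x, y < a ^ 2 / 4 :=
  Iio_mem_nhds hx

private theorem zf_deriv {a : ℝ} (ha : 0 < a) (x : ℝ) : HasDerivAt (zf a) (zd a x) x := by
  rcases lt_or_ge x (a ^ 2 / 4) with h | h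
  · have e1 : zd a x = 0 := by
      unfold zd
      rw [kf_zero_left (arg_neg ha (sqrt_lt' ha h)), zero_div]
    rw [e1]
    have e2 : zf a =ᶠ[𝓝 x] fun _ => (0 : ℝ) := by
      filter_upwards [ev_lt h] with y hy
      exact Pf_zero (arg_neg ha (sqrt_lt' ha hy))
    exact (hasDerivAt_const x (0 : ℝ)).congr_of_eventuallyEq e2
  · have hx : 0 < x := lt_of_lt_of_le (by positivity) h
    have hs : 0 < Real.sqrt x := Real.sqrt_pos.mpr hx
    have d1 : HasDerivAt (fun x => 2 * Real.sqrt x / a - 1) (2 * (1 / (2 * Real.sqrt x)) / a) x :=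
      (((Real.hasDerivAt_sqrt hx.ne').const_mul 2).div_const a).sub_const 1
    have d2 := (Pf_deriv (2 * Real.sqrt x / a - 1)).comp x d1
    have e : kf (2 * Real.sqrt x / a - 1) * (2 * (1 / (2 * Real.sqrt x)) / a) = zd a x := by
      unfold zd
      field_simp
    rw [e] at d2
    exact d2

private theorem zd_cont {a : ℝ} (ha : 0 < a) : Continuous (zd a) := by
  rw [continuous_iff_continuousAt]
  intro x
  rcases lt_or_ge x (a ^ 2 / 4) with h | h
  · have e2 : zd a =ᶠ[𝓝 x] fun _ => (0 : ℝ) := by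
      filter_upwards [ev_lt h] with y hy
      unfold zd
      rw [kf_zero_left (arg_neg ha (sqrt_lt' ha hy)), zero_div]
    exact continuousAt_const.congr e2.symm
  · have hx : 0 < x := lt_of_lt_of_le (by positivity) h
    have hs : 0 < Real.sqrt x := Real.sqrt_pos.mpr hx
    unfold zd
    refine ContinuousAt.div ?_ ?_ (by positivity)
    · exact (kf_cont.comp (by fun_prop)).continuousAt
    · fun_prop

private theorem zf_c1 {a : ℝ} (ha : 0 < a) : ContDiff ℝ 1 (zf a) := by
  rw [contDiff_one_iff_deriv]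
  refine ⟨fun x => (zf_deriv ha x).differentiableAt, ?_⟩
  have : deriv (zf a) = zd a := funext fun x => (zf_deriv ha x).deriv
  rw [this]
  exact zd_cont ha

private theorem zd_nonneg {a : ℝ} (ha : 0 < a) (x : ℝ) : 0 ≤ zd a x := by
  unfold zd
  exact div_nonneg (kf_nonneg _) (mul_nonneg ha.le (Real.sqrt_nonneg _))

/-! ### Cauchy-Schwarz on a set -/

private theorem cs_set {M : Type} [MeasurableSpace M] (μ : Measure M) [IsFiniteMeasure μ]
    (f : M → ℝ) (S : Set M) (hS : MeasurableSet S) (hf : Integrable f μ)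
    (hf2 : Integrable (fun q => f q ^ 2) μ) (hf0 : ∀ q, 0 ≤ f q) :
    ∫ q in S, f q ∂μ ≤ Real.sqrt (μ.real S) * Real.sqrt (∫ q, f q ^ 2 ∂μ) := by
  set A := ∫ q in S, f q ^ 2 ∂μ with hA
  set B := ∫ q in S, f q ∂μ with hB
  have hquad : ∀ x : ℝ, 0 ≤ μ.real S * (x * x) + (-2 * B) * x + A := by
    intro x
    have h1 : 0 ≤ ∫ q in S, (f q - x) ^ 2 ∂μ := integral_nonneg fun q => sq_nonneg _
    have h2 : ∫ q in S, (f q - x) ^ 2 ∂μ = A - 2 * x * B + x ^ 2 * μ.real S := by
      have e : ∀ q, (f q - x) ^ 2 = f q ^ 2 - 2 * x * f q + x ^ 2 := fun q => by ring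
      simp only [e]
      have i1 : IntegrableOn (fun q => f q ^ 2) S μ := hf2.integrableOn
      have i2 : IntegrableOn (fun q => 2 * x * f q) S μ := (hf.integrableOn).const_mul _
      have i3 : IntegrableOn (fun _ : M => x ^ 2) S μ := integrableOn_const (by finiteness)
      have i12 : IntegrableOn (fun q => f q ^ 2 - 2 * x * f q) S μ := i1.sub i2
      rw [integral_add i12 i3, integral_sub i1 i2, integral_const_mul]
      simp only [integral_const, smul_eq_mul, measureReal_restrict_apply_univ]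
      rw [hA, hB]
      ring
    rw [h2] at h1
    nlinarith
  have hd := discrim_le_zero hquad
  unfold discrim at hd
  have hB0 : 0 ≤ B := setIntegral_nonneg hS fun q _ => hf0 q
  have hAle : A ≤ ∫ q, f q ^ 2 ∂μ :=
    setIntegral_le_integral hf2 (Eventually.of_forall fun q => sq_nonneg _)
  have hm : 0 ≤ μ.real S := measureReal_nonneg
  rw [← Real.sqrt_mul hm]
  apply Real.le_sqrt_of_sq_le
  nlinarith [mul_le_mul_of_nonneg_left hAle hm]

/-! ### the estimate -/

private theorem sl {M E : Type} [TopologicalSpace M] [TopologicalSpace E] (J : Set ℝ)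
    (G : M → ℝ → E) (hG : ContinuousOn (fun z : M × ℝ => G z.1 z.2) (univ ×ˢ J)) (t : ℝ)
    (ht : t ∈ J) : Continuous fun q => G q t := by
  have hslice : Continuous (fun q : M => ((q, t) : M × ℝ)) := by fun_prop
  have hmaps : ∀ q : M, ((q, t) : M × ℝ) ∈ (univ : Set M) ×ˢ J := fun q => ⟨mem_univ _, ht⟩
  exact hG.comp_continuous hslice hmaps

/-- the measure theoretic part -/
private theorem core {M : Type} [TopologicalSpace M] [MeasurableSpace M] [BorelSpace M]
    (μ : Measure M) [IsFiniteMeasure μ] (w Y g G : M → ℝ) (a : ℝ) (ha : 0 < a)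
    (hint : ∀ f : M → ℝ, Continuous f → Integrable f μ) (hw : Continuous w)
    (hw0 : ∀ q, 0 ≤ w q) (hYw : ∀ q, Y q = w q ^ 2) (hg : Continuous g) (hg0 : ∀ q, 0 ≤ g q)
    (hG : Continuous G) (hG0 : ∀ q, 0 ≤ G q) (hGle : ∀ q, G q ^ 2 ≤ 8 * (Y q * g q))
    (hS : 16 * Real.pi * ∫ q in {q : M | a ≤ w q}, zf a (Y q) ∂μ
      ≤ μ.real {q : M | a ≤ w q} * (∫ q, zf a (Y q) * Y q ∂μ)
        + 8 * Real.sqrt (2 * (∫ q, Y q ∂μ) * μ.real {q : M | a ≤ w q})
          * ∫ q, zd a (Y q) * G q ∂μ) :
    16 * Real.pi * μ.real {q : M | a ≤ w q}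
      ≤ μ.real {q : M | a ≤ w q} * (∫ q in {q : M | a / 2 ≤ w q}, Y q ∂μ)
        + 48 / a * Real.sqrt ((∫ q, Y q ∂μ) * ∫ q, g q ∂μ)
          * Real.sqrt (μ.real {q : M | a ≤ w q} * μ.real {q : M | a / 2 ≤ w q}) := by
  have hYc : Continuous Y := by
    have : Y = fun q => w q ^ 2 := funext hYw
    rw [this]
    exact hw.pow 2
  have hsq : ∀ q, Real.sqrt (Y q) = w q := fun q => by
    rw [hYw]
    exact Real.sqrt_sq (hw0 q)
  have hPm : ∀ b : ℝ, MeasurableSet {q : M | b ≤ w q} := fun b =>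
    (isClosed_le continuous_const hw).measurableSet
  have hYn : ∀ q, 0 ≤ Y q := fun q => by
    rw [hYw]
    positivity
  -- the left side
  have e1 : ∫ q in {q : M | a ≤ w q}, zf a (Y q) ∂μ = μ.real {q : M | a ≤ w q} := by
    rw [setIntegral_congr_fun (g := fun _ => (1 : ℝ)) (hPm a)]
    · simp
    · intro q hq
      have : a ≤ Real.sqrt (Y q) := by
        rw [hsq]
        exact hq
      exact Pf_one (arg_pos ha this)
  -- the energy
  have iY : Integrable Y μ := hint _ hYc
  have ihY : Integrable (fun q => zf a (Y q) * Y q) μ :=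
    hint _ (((zf_c1 ha).continuous.comp hYc).mul hYc)
  have e2 : ∫ q, zf a (Y q) * Y q ∂μ ≤ ∫ q in {q : M | a / 2 ≤ w q}, Y q ∂μ := by
    rw [← integral_indicator (hPm (a / 2))]
    refine integral_mono ihY (iY.indicator (hPm (a / 2))) ?_
    intro q
    by_cases hq : a / 2 ≤ w q
    · rw [indicator_of_mem (show q ∈ {q : M | a / 2 ≤ w q} from hq)]
      have h1 : zf a (Y q) ≤ 1 := Pf_le_one _
      have h0 := hYn q
      change zf a (Y q) * Y q ≤ Y q
      nlinarith
    · rw [indicator_of_notMem (show q ∉ {q : M | a / 2 ≤ w q} from hq)]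
      have h2 : Real.sqrt (Y q) ≤ a / 2 := by
        rw [hsq]
        exact (not_le.mp hq).le
      have h3 : zf a (Y q) = 0 := Pf_zero (arg_neg ha h2)
      change zf a (Y q) * Y q ≤ 0
      rw [h3, zero_mul]
  -- the gradient term
  have isg : Integrable (fun q => Real.sqrt (g q)) μ := hint _ (Real.continuous_sqrt.comp hg)
  have ig : Integrable g μ := hint _ hg
  have ik : Integrable (fun q => zd a (Y q) * G q) μ := hint _ (((zd_cont ha).comp hYc).mul hG)
  have e3 : ∫ q, zd a (Y q) * G q ∂μ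
      ≤ 3 * Real.sqrt 2 / a * (Real.sqrt (μ.real {q : M | a / 2 ≤ w q})
        * Real.sqrt (∫ q, g q ∂μ)) := by
    have h1 : ∫ q, zd a (Y q) * G q ∂μ
        ≤ ∫ q, ({q : M | a / 2 ≤ w q}).indicator
          (fun q => 3 * Real.sqrt 2 / a * Real.sqrt (g q)) q ∂μ := by
      refine integral_mono ik ((isg.const_mul _).indicator (hPm (a / 2))) ?_
      intro q
      by_cases hq : a / 2 ≤ w q
      · rw [indicator_of_mem (show q ∈ {q : M | a / 2 ≤ w q} from hq)]
        have hwq : 0 < w q := lt_of_lt_of_le (by positivity) hq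
        have hgrad : G q ≤ 2 * Real.sqrt 2 * w q * Real.sqrt (g q) := by
          have h4 := hGle q
          have h5 : (2 * Real.sqrt 2 * w q * Real.sqrt (g q)) ^ 2 = 8 * (Y q * g q) := by
            rw [mul_pow, mul_pow, mul_pow, Real.sq_sqrt (by norm_num), Real.sq_sqrt (hg0 q), hYw]
            ring
          rw [← h5] at h4
          exact (abs_le_of_sq_le_sq' h4 (by positivity)).2
        have hz : zd a (Y q) ≤ 3 / 2 / (a * w q) := by
          unfold zd
          rw [hsq]
          exact div_le_div_of_nonneg_right (kf_le _) (by positivity)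
        calc zd a (Y q) * G q
            ≤ 3 / 2 / (a * w q) * (2 * Real.sqrt 2 * w q * Real.sqrt (g q)) :=
              mul_le_mul hz hgrad (hG0 q) (by positivity)
          _ = 3 * Real.sqrt 2 / a * Real.sqrt (g q) := by
              field_simp
      · rw [indicator_of_notMem (show q ∉ {q : M | a / 2 ≤ w q} from hq)]
        have h2 : Real.sqrt (Y q) ≤ a / 2 := by
          rw [hsq]
          exact (not_le.mp hq).le
        have h3 : zd a (Y q) = 0 := by
          unfold zd
          rw [kf_zero_left (arg_neg ha h2), zero_div]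
        change zd a (Y q) * G q ≤ 0
        rw [h3, zero_mul]
    rw [integral_indicator (hPm (a / 2)), integral_const_mul] at h1
    refine h1.trans ?_
    have hcs := cs_set μ (fun q => Real.sqrt (g q)) _ (hPm (a / 2)) isg
      (by
        have : (fun q => Real.sqrt (g q) ^ 2) = g := funext fun q => Real.sq_sqrt (hg0 q)
        rw [this]
        exact ig) (fun q => Real.sqrt_nonneg _)
    have e4 : ∫ q, Real.sqrt (g q) ^ 2 ∂μ = ∫ q, g q ∂μ :=
      integral_congr_ae (Eventually.of_forall fun q => Real.sq_sqrt (hg0 q))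
    rw [e4] at hcs
    exact mul_le_mul_of_nonneg_left hcs (by positivity)
  -- the end
  rw [e1] at hS
  have hW : 0 ≤ ∫ q, Y q ∂μ := integral_nonneg hYn
  have hD : 0 ≤ ∫ q, g q ∂μ := integral_nonneg hg0
  have hm0 : 0 ≤ μ.real {q : M | a ≤ w q} := measureReal_nonneg
  have hm1 : 0 ≤ μ.real {q : M | a / 2 ≤ w q} := measureReal_nonneg
  generalize μ.real {q : M | a ≤ w q} = m at hS hm0 ⊢
  generalize μ.real {q : M | a / 2 ≤ w q} = m' at e3 hm1 ⊢
  generalize ∫ q, Y q ∂μ = W at hS hW ⊢
  generalize ∫ q, g q ∂μ = D at e3 hD ⊢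
  have e5 : 8 * Real.sqrt (2 * W * m) * (3 * Real.sqrt 2 / a * (Real.sqrt m' * Real.sqrt D))
      = 48 / a * Real.sqrt (W * D) * Real.sqrt (m * m') := by
    rw [Real.sqrt_mul (by positivity), Real.sqrt_mul (by norm_num), Real.sqrt_mul hW,
      Real.sqrt_mul hm0]
    have h2 : Real.sqrt 2 * Real.sqrt 2 = 2 := Real.mul_self_sqrt (by norm_num)
    have e6 : 8 * (Real.sqrt 2 * Real.sqrt W * Real.sqrt m)
        * (3 * Real.sqrt 2 / a * (Real.sqrt m' * Real.sqrt D))
        = 24 / a * (Real.sqrt 2 * Real.sqrt 2) * (Real.sqrt W * Real.sqrt D)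
          * (Real.sqrt m * Real.sqrt m') := by ring
    rw [e6, h2]
    ring
  have h6 := mul_le_mul_of_nonneg_left e2 hm0
  have h7 := mul_le_mul_of_nonneg_left e3 (show 0 ≤ 8 * Real.sqrt (2 * W * m) by positivity)
  rw [e5] at h7
  linarith

/-- **CAP** -/
theorem hCAP (hSIA : StSIA) (hPRJ : StPRJ) (hMUJ : StMUJ) (hENE : StENE) (hI4J : StI4J) :
    StCAP := by
  intro N M _ _ _ _ _ _ _ _ J F c χ δ hF hP t ht a ha
  obtain ⟨s, -, hs⟩ := hMUJ 2 N M J F c χ hF.toJ
  obtain ⟨hfin, -, hint⟩ := hs t ht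
  have hifin : IsFiniteMeasure (muM 2 F c χ t) := ⟨hfin⟩
  have hH : Continuous (fun q => HH (n := 2) F q t) :=
    sl J (HH (n := 2) F) (hI4J 2 N M J F hF.toJ.mcf).2.1 t ht
  have hgc : Continuous (fun q => g3F F q t) := (hENE N M J F c χ hF t ht).1
  have hgY : Continuous (gdM 2 F t (fun q => YF F q t)) := (hP.eY.gr t ht).continuous
  have hYs := hP.eY.sm t ht
  have hYc : Continuous (fun q => YF F q t) := hYs.continuous
  -- the test function
  have hh : ContMDiff (𝓡 2) 𝓘(ℝ, ℝ) 1 (fun q => zf a (YF F q t)) :=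
    (zf_c1 ha).comp_contMDiff hYs
  have hk : Continuous (fun q => zd a (YF F q t) * ‖gdM 2 F t (fun q => YF F q t) q‖) :=
    ((zd_cont ha).comp hYc).mul hgY.norm
  have hgr : ∀ q, ‖gdM 2 F t (fun q => zf a (YF F q t)) q‖
      ≤ zd a (YF F q t) * ‖gdM 2 F t (fun q => YF F q t) q‖ := by
    intro q
    have h1 := (hPRJ 2 N M J F hF.toJ.mcf t ht).2.2.2.1 (fun q => YF F q t) hYs (zf a)
      (zf_c1 ha) q
    rw [h1, norm_smul, (zf_deriv ha _).deriv, Real.norm_eq_abs, abs_of_nonneg (zd_nonneg ha _)]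
  have hPm : MeasurableSet {q : M | a ≤ ‖HH (n := 2) F q t‖} :=
    (isClosed_le continuous_const hH.norm).measurableSet
  have hS := hSIA N M J F c χ hF.toJ t ht (fun q => zf a (YF F q t)) _ hh hk
    (fun q => Pf_nonneg _) hgr _ hPm
  exact core (muM 2 F c χ t) (fun q => ‖HH (n := 2) F q t‖) (fun q => YF F q t)
    (fun q => g3F F q t) (fun q => ‖gdM 2 F t (fun q => YF F q t) q‖) a ha
    (fun f hf => (hint f hf).1) hH.norm (fun q => norm_nonneg _) (fun q => rfl) hgc
    (fun q => hP.g0 q t ht) hgY.norm (fun q => norm_nonneg _) (fun q => hP.gr q t ht) hS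

end Helper18.MS
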